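import Mathlib
import Pool.Agent.V11279.QPc

set_option autoImplicit false

namespace Pool.Agent.Results.MP_21276c_lc.IteratesAndSelectives

open Pool.Agent.V11279.QP

/-- (1) In ZFC: for a p-point `W` and pairwise nonisomorphic selective `Y n`, the Fubini limit
`lim_{n → W} Y n` is a q-point and is not selective.
(2) In ZFC: some finite Fubini iterate of p-points is a nonselective q-point if and only if there
are infinitely many selective ultrafilters up to isomorphism.
(3) In ZFC: if there are infinitely many selective ultrafilters up to isomorphism, then the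
statement of the problem fails.
(4) Under the Continuum Hypothesis there are infinitely many selective ultrafilters up to
isomorphism, and the statement of the problem fails. -/
theorem result :
    (∀ (W : Ultrafilter ℕ) (Y : ℕ → Ultrafilter ℕ), IsPPoint W → (∀ n, IsSelective (Y n)) →
      (∀ n m, n ≠ m → ¬ Isomorphic (Y n) (Y m)) →
      IsIterate 1 (fubini W Y) ∧ IsQPoint (fubini W Y) ∧ ¬ IsSelective (fubini W Y)) ∧
    ((∃ (V : Ultrafilter ℕ) (k : ℕ), IsIterate k V ∧ IsQPoint V ∧ ¬ IsSelective V) ↔
      InfinitelyManySelectives) ∧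
    (InfinitelyManySelectives → ∃ (U V : Ultrafilter ℕ) (k : ℕ),
      IsIterate k U ∧ IsQPoint V ∧ TukeyLE V U ∧ ¬ IsSelective V) ∧
    (Cardinal.aleph.{0} 1 = Cardinal.continuum.{0} →
      InfinitelyManySelectives ∧ ∃ (U V : Ultrafilter ℕ) (k : ℕ),
        IsIterate k U ∧ IsQPoint V ∧ TukeyLE V U ∧ ¬ IsSelective V) := by
  have h3 : InfinitelyManySelectives → ∃ (U V : Ultrafilter ℕ) (k : ℕ),
      IsIterate k U ∧ IsQPoint V ∧ TukeyLE V U ∧ ¬ IsSelective V := by
    intro h
    obtain ⟨V, h1, h2, h4⟩ := exists_iterate h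
    exact ⟨V, V, 1, h1, h2, tukeyLE_refl V, h4⟩
  refine ⟨?_, ⟨?_, ?_⟩, h3, ?_⟩
  · intro W Y hW hY hne
    exact ⟨IsIterate.sum 0 W Y hW (fun n => IsIterate.base _ (isSelective_pPoint (hY n))),
      fubini_qPoint hY hne, fubini_not_selective hW.1 (fun n => (hY n).1)⟩
  · rintro ⟨V, k, h1, h2, h4⟩
    by_contra hfin
    exact h4 (selective_of_iterate hfin h1 h2)
  · intro h
    obtain ⟨V, h1, h2, h4⟩ := exists_iterate h
    exact ⟨V, 1, h1, h2, h4⟩
  · intro hCH
    have h := infinitelyManySelectives_of_CH hCH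
    exact ⟨h, h3 h⟩

end Pool.Agent.Results.MP_21276c_lc.IteratesAndSelectives
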